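import Pool.Agent.PFJ.Stmts

/-!
# PFJ squad, row DSS: failure of discreteness gives a pair
-/

set_option autoImplicit false

open Matrix Filter Topology

namespace Pool.Agent.PFJ.H60

open Pool.Agent.PFS Pool.Agent.PFJ

theorem dss_spread {K : ℕ} (hK : 0 < K) (u : Fin K → ℤ) :
    ∃ a b : Fin K, ∀ i j, u i - u j ≤ u a - u b := by
  haveI : Nonempty (Fin K) := ⟨⟨0, hK⟩⟩
  obtain ⟨a, ha⟩ := Finite.exists_max u
  obtain ⟨b, hb⟩ := Finite.exists_min u
  exact ⟨a, b, fun i j => by have := ha i; have := hb j; omega⟩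

theorem dss (mns : MnsStmt) (zss : ZssStmt) (nsf : NsfStmt) (aas : AasStmt) : DssStmt := by
  intro n C Γ h K hK hmax P hP L w β L' x β' hbox hPL hbox' hPL' hdim hlim hne
  have hw : IsPES C Γ w := hbox.pes
  have hK0 : 0 < K := by omega
  obtain ⟨u, hu1, hu2, hu3⟩ := mns n C Γ h K hK (fun m => ⨆ a, L' m a) L w β hbox
    (fun m => hP.full _ (hPL' m)) hdim hlim hne
  -- near with constant 4 as soon as the spread is positive
  have near4 : ∀ m, (∃ i j, (1 : ℤ) ≤ u m i - u m j) →
      NearS C 4 (⨆ a, L' m a) (pt w (u m)) := by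
    rintro m ⟨i0, j0, hij⟩
    obtain ⟨a, b, hab⟩ := dss_spread hK0 (u m)
    have hD : 1 ≤ u m a - u m b := hij.trans (hab i0 j0)
    let v : Fin K → ℤ := fun i => if u m i = u m a then u m i - 1 else u m i
    have hle : ∀ i, u m i ≤ u m a := fun i => by have := hab i b; omega
    have hge : ∀ i, u m b ≤ u m i := fun i => by have := hab a i; omega
    have hv1 : ∀ i, v i ≤ u m i := by
      intro i; simp only [v]; split_ifs <;> omega
    have hv2 : ∀ i, u m i - 1 ≤ v i := by
      intro i; simp only [v]; split_ifs <;> omega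
    have hnear2 : NearS C 2 (⨆ a, L' m a) (pt w v) := by
      refine hu2 m v (u m a - u m b - 1) ?_ ⟨a, b, by omega⟩
      intro i j
      have h1 := hle i
      have h2 := hge i
      have h3 := hle j
      have h4 := hge j
      simp only [v]
      split_ifs <;> omega
    have hp : pt w (u m) - pt w v ∈ closure C := by
      unfold pt
      rw [← Finset.sum_sub_distrib]
      refine h.cl_sum fun i _ => ?_
      rw [← sub_smul]
      refine h.cl_smul (hw.1.cl i) ?_
      have := zpow_le_zpow_right₀ (one_le_two : (1 : ℝ) ≤ 2) (hv1 i)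
      linarith
    have hq : (2 : ℝ) • pt w v - pt w (u m) ∈ closure C := by
      unfold pt
      rw [Finset.smul_sum, ← Finset.sum_sub_distrib]
      refine h.cl_sum fun i _ => ?_
      rw [smul_smul, ← sub_smul]
      refine h.cl_smul (hw.1.cl i) ?_
      have h1 := zpow_le_zpow_right₀ (one_le_two : (1 : ℝ) ≤ 2)
        (show u m i ≤ 1 + v i by have := hv2 i; omega)
      rw [zpow_add₀ (by norm_num : (2 : ℝ) ≠ 0), zpow_one] at h1
      linarith
    have := (nsf n C Γ h).2.1 2 (⨆ a, L' m a) (pt w v) (pt w (u m)) hnear2 hp hq (by norm_num)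
    norm_num at this
    exact this
  -- shift
  obtain ⟨m0, hm0⟩ := eventually_atTop.mp (hu3 1)
  obtain ⟨φ, J, hφ, hJ, hJc, hgap⟩ := Pool.Agent.PFS.H97.gap K (fun m => u (m + m0)) (by
    intro D
    exact (tendsto_add_atTop_nat m0).eventually (hu3 D))
  obtain ⟨ψ, Lo, wo, Lo', wo', βo', hψ, hb1, hb2, hP1, hP2, hdimo, hneo, hnear⟩ :=
    zss n C Γ h K hK hmax P hP L w β (fun m => L' (φ m + m0)) (fun m => x (φ m + m0))
      (fun m => β' (φ m + m0)) (fun m => u (φ m + m0)) 4 2 (by norm_num) hbox hPL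
      (fun m => hbox' _) (fun m => hPL' _) (fun m => hdim _)
      (fun m => near4 _ (hm0 _ (by omega))) (fun m => hu1 _)
  -- nearness in the region
  have hreg : ∀ v : Fin K → ℤ, (∀ i, i ∉ J → ∀ j, j ∈ J → v i < v j) →
      NearS C 2 (⨆ a, Lo' a) (pt wo v) := by
    intro v hv
    obtain ⟨a0, b0, hν⟩ := dss_spread hK0 v
    refine hnear v 2 ?_
    have hev : ∀ᶠ m in atTop, NearS C 2 (⨆ a, L' (φ m + m0) a)
        (pt w (fun i => u (φ m + m0) i + v i)) := by
      filter_upwards [hgap (v a0 - v b0 + 1)] with m hg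
      obtain ⟨a, b, hab⟩ := dss_spread hK0 (u (φ m + m0))
      refine hu2 (φ m + m0) _ (u (φ m + m0) a - u (φ m + m0) b - 1) ?_ ⟨a, b, by omega⟩
      intro i j
      obtain ⟨j1, hj1⟩ := hJ
      obtain ⟨i1, hi1⟩ := hJc
      rw [Finset.mem_compl] at hi1
      have h0 := hab i j
      have h1 := hν i j
      have h11 := hab i1 j1
      have h12 := hg i1 hi1 j1 hj1
      have h13 := hν a0 a0
      by_cases hi : i ∈ J
      · by_cases hj : j ∈ J
        · have h2 := hg i1 hi1 i hi
          have h3 := hab i1 j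
          omega
        · have h2 := hg j hj i hi
          omega
      · by_cases hj : j ∈ J
        · have h2 := hv i hi j hj
          omega
        · have h2 := hg j hj j1 hj1
          have h3 := hab i j1
          omega
    exact (hψ.tendsto_atTop.eventually hev).frequently
  have hcard : (Jᶜ).card = 1 := by
    by_contra hne1
    have hpos : 0 < (Jᶜ).card := Finset.card_pos.mpr hJc
    exact hneo ((aas n C Γ h.toPCone K hK Lo wo β (⨆ a, Lo' a) hb1
      (fun i => hb1.pes.1.cl i) (hP.full _ hP2) hdimo).2.2 J 2 hJ (by omega) hreg)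
  obtain ⟨i, hi⟩ := Finset.card_eq_one.mp hcard
  refine ⟨Lo, wo, β, Lo', wo', βo', i, ⟨hb1, hb2, hP1, hP2, hdimo, hneo, fun v hv => hreg v ?_⟩⟩
  intro i' hi' j hj
  have h1 : i' = i := by
    have : i' ∈ Jᶜ := Finset.mem_compl.mpr hi'
    rw [hi] at this
    exact Finset.mem_singleton.mp this
  have h2 : j ≠ i := by
    intro hji
    have : i ∈ Jᶜ := by rw [hi]; exact Finset.mem_singleton_self i
    rw [Finset.mem_compl] at this
    exact this (hji ▸ hj)
  rw [h1]
  exact hv j h2

end Pool.Agent.PFJ.H60
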